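import Pool.Agent.P.MP_c9edc3_al.Defs1

set_option autoImplicit false

namespace Pool.Agent.P.MP_c9edc3_al

/-- Binary relations on `F`. -/
structure BRel (F : Type) where
  rel : F → F → Prop

/-- Composition of binary relations. -/
@[reducible] def BRel.semigroup (F : Type) : Semigroup (BRel F) where
  mul r s := ⟨fun x z => ∃ y, r.rel x y ∧ s.rel y z⟩
  mul_assoc r s t := by
    change BRel.mk _ = BRel.mk _
    congr 1
    funext x w
    apply propext
    constructor
    · rintro ⟨z, ⟨y, h1, h2⟩, h3⟩
      exact ⟨y, h1, z, h2, h3⟩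
    · rintro ⟨y, h1, z, h2, h3⟩
      exact ⟨z, ⟨y, h1, h2⟩, h3⟩

lemma BRel.finite (F : Type) [Finite F] : Finite (BRel F) :=
  Finite.of_surjective (fun r : F → F → Prop => BRel.mk r) fun r => ⟨r.rel, rfl⟩

lemma symInv_mul_eq_some {S : Type} (α β : SymInv S) (a c : S) :
    (α * β).toFun a = some c ↔ ∃ b, α.toFun a = some b ∧ β.toFun b = some c :=
  PEquiv.trans_eq_some α β a c

variable {S : Type} [Semigroup S]

/-- The shape of the elements of `Inn(S)`: a sandwich map on a set cut out by equations. -/
def Shape (α : SymInv S) : Prop :=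
  (∃ g h : WithOne S, ∀ a b : S, α.toFun a = some b →
    g * h * (a : WithOne S) = a ∧ (a : WithOne S) * (g * h) = a ∧ (b : WithOne S) = h * a * g) ∧
  ∀ a : S, α.toFun a = none →
    (∃ x y : WithOne S, x * (a : WithOne S) ≠ y * a ∧
      ∀ c d : S, α.toFun c = some d → x * (c : WithOne S) = y * c) ∨
    (∃ x y : WithOne S, (a : WithOne S) * x ≠ a * y ∧
      ∀ c d : S, α.toFun c = some d → (c : WithOne S) * x = c * y)

lemma shape_phi1 (g h : WithOne S) : Shape (phi1 g h) := by
  have key : ∀ a b : S, (phi1 g h).toFun a = some b →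
      g * h * (a : WithOne S) = a ∧ (a : WithOne S) * (g * h) = a ∧
        (b : WithOne S) = h * a * g := by
    intro a b H
    simp only [phi1] at H
    split_ifs at H with ha
    rw [← Option.some.inj H, coe_sand]
    exact ⟨ha.1, ha.2, rfl⟩
  refine ⟨⟨g, h, key⟩, fun a H => ?_⟩
  simp only [phi1] at H
  split_ifs at H with ha
  rcases not_and_or.1 ha with h1 | h1
  · exact Or.inl ⟨g * h, 1, by rwa [one_mul], fun c d hc => by rw [one_mul, (key c d hc).1]⟩
  · exact Or.inr ⟨g * h, 1, by rwa [mul_one], fun c d hc => by rw [mul_one, (key c d hc).2.1]⟩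

lemma shape_one : Shape (1 : SymInv S) := by
  refine ⟨⟨1, 1, fun a b H => ?_⟩, fun a H => ?_⟩
  · obtain rfl : a = b := Option.some.inj H
    simp
  · exact absurd H (Option.some_ne_none a)

lemma Shape.mul {α β : SymInv S} (hα : Shape α) (hβ : Shape β) : Shape (α * β) := by
  obtain ⟨⟨g, h, H⟩, H2⟩ := hα
  obtain ⟨⟨g', h', H'⟩, H2'⟩ := hβ
  refine ⟨⟨g * g', h' * h, fun a c hac => ?_⟩, fun a ha => ?_⟩
  · obtain ⟨b, hab, hbc⟩ := (symInv_mul_eq_some α β a c).1 hac
    obtain ⟨h1, h2, h3⟩ := H a b hab
    obtain ⟨h4, h5, h6⟩ := H' b c hbc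
    have h7 : g * (b : WithOne S) * h = a := by
      calc g * (b : WithOne S) * h = g * h * a * (g * h) := by rw [h3]; simp only [mul_assoc]
        _ = a := by rw [h1, h2]
    refine ⟨?_, ?_, ?_⟩
    · calc g * g' * (h' * h) * (a : WithOne S) = g * g' * (h' * h) * (a * (g * h)) := by rw [h2]
        _ = g * (g' * h' * (h * a * g)) * h := by simp only [mul_assoc]
        _ = a := by rw [← h3, h4, h7]
    · calc (a : WithOne S) * (g * g' * (h' * h)) = g * h * a * (g * g' * (h' * h)) := by rw [h1]
        _ = g * (h * a * g * (g' * h')) * h := by simp only [mul_assoc]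
        _ = a := by rw [← h3, h5, h7]
    · rw [h6, h3]
      simp only [mul_assoc]
  · cases hab : α.toFun a with
    | none =>
      rcases H2 a hab with ⟨x, y, h1, h2⟩ | ⟨x, y, h1, h2⟩
      · refine Or.inl ⟨x, y, h1, fun c d hc => ?_⟩
        obtain ⟨b, hb, -⟩ := (symInv_mul_eq_some α β c d).1 hc
        exact h2 c b hb
      · refine Or.inr ⟨x, y, h1, fun c d hc => ?_⟩
        obtain ⟨b, hb, -⟩ := (symInv_mul_eq_some α β c d).1 hc
        exact h2 c b hb
    | some b =>
      have hb : β.toFun b = none := by
        cases hbc : β.toFun b with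
        | none => rfl
        | some c =>
          rw [(symInv_mul_eq_some α β a c).2 ⟨b, hab, hbc⟩] at ha
          exact absurd ha (Option.some_ne_none c)
      have h3 := (H a b hab).2.2
      rcases H2' b hb with ⟨x, y, h1, h2⟩ | ⟨x, y, h1, h2⟩
      · refine Or.inl ⟨x * h, y * h, fun h4 => h1 ?_, fun c d hc => ?_⟩
        · rw [h3]
          simpa only [mul_assoc] using congrArg (· * g) h4
        · obtain ⟨e, he, hed⟩ := (symInv_mul_eq_some α β c d).1 hc
          obtain ⟨-, h5, h6⟩ := H c e he
          have h7 := congrArg (· * h) (h2 e d hed)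
          simp only [h6, mul_assoc] at h7
          rw [h5] at h7
          simpa only [mul_assoc] using h7
      · refine Or.inr ⟨g * x, g * y, fun h4 => h1 ?_, fun c d hc => ?_⟩
        · rw [h3]
          simpa only [mul_assoc] using congrArg (h * ·) h4
        · obtain ⟨e, he, hed⟩ := (symInv_mul_eq_some α β c d).1 hc
          obtain ⟨h5, -, h6⟩ := H c e he
          have h7 := congrArg (g * ·) (h2 e d hed)
          simp only [h6, ← mul_assoc] at h7
          rw [h5] at h7
          simpa only [← mul_assoc] using h7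

lemma shape_of_mem {α : SymInv S} (hα : α ∈ Inn1 S) : Shape α := by
  induction hα using Submonoid.closure_induction with
  | mem x hx =>
    obtain ⟨g, h, rfl⟩ := hx
    exact shape_phi1 g h
  | one => exact shape_one
  | mul x y _ _ hx hy => exact hx.mul hy

lemma Shape.dom {α : SymInv S} (hα : Shape α) {a b a' : S} (hab : α.toFun a = some b)
    (hl : ∀ x y : WithOne S, x * (a : WithOne S) = y * a → x * (a' : WithOne S) = y * a')
    (hr : ∀ x y : WithOne S, (a : WithOne S) * x = a * y → (a' : WithOne S) * x = a' * y) :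
    ∃ b', α.toFun a' = some b' := by
  cases h : α.toFun a' with
  | some b' => exact ⟨b', rfl⟩
  | none =>
    rcases hα.2 a' h with ⟨x, y, h1, h2⟩ | ⟨x, y, h1, h2⟩
    · exact absurd (hl x y (h2 a b hab)) h1
    · exact absurd (hr x y (h2 a b hab)) h1

/-- The image of a map in a quotient, as a binary relation. -/
def img {F : Type} (f : S → F) (α : SymInv S) : BRel F :=
  ⟨fun p q => ∃ a b : S, α.toFun a = some b ∧ f a = p ∧ f b = q⟩

theorem resFin_inn1 (hc : ∀ e f : S, e * e = e → f * f = f → e * f = f * e)
    (hR : ∀ a : S, ∃ e : WithOne S, e * e = e ∧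
      ∀ x y : WithOne S, x * (a : WithOne S) = y * (a : WithOne S) ↔ x * e = y * e)
    (hL : ∀ a : S, ∃ e : WithOne S, e * e = e ∧
      ∀ x y : WithOne S, (a : WithOne S) * x = (a : WithOne S) * y ↔ e * x = e * y)
    (hS : ResFin S) : ResFin (Inn1 S) := by
  have hc1 : ∀ e f : WithOne S, e * e = e → f * f = f → e * f = f * e := by
    intro e f he hf
    induction e using WithOne.recOneCoe with
    | one => simp
    | coe e =>
      induction f using WithOne.recOneCoe with
      | one => simp
      | coe f =>
        rw [← WithOne.coe_mul, WithOne.coe_inj] at he hf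
        rw [← WithOne.coe_mul, ← WithOne.coe_mul, hc e f he hf]
  have hl : ∀ (b : S) (e x y : WithOne S), e * e = e → x * (b : WithOne S) = y * b →
      x * (e * b) = y * (e * b) := by
    intro b e x y he h
    obtain ⟨u, hu, H⟩ := hR b
    have h1 : u * (b : WithOne S) = b := by simpa using (H u 1).2 (by rw [hu, one_mul])
    have h2 : e * (b : WithOne S) = u * (e * b) := by
      rw [← mul_assoc, hc1 u e hu he, mul_assoc, h1]
    rw [h2, ← mul_assoc, ← mul_assoc y, (H x y).1 h]
  have hr : ∀ (b : S) (e x y : WithOne S), e * e = e → (b : WithOne S) * x = b * y →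
      b * e * x = b * e * y := by
    intro b e x y he h
    obtain ⟨u, hu, H⟩ := hL b
    have h1 : (b : WithOne S) * u = b := by simpa using (H u 1).2 (by rw [hu, mul_one])
    have h2 : (b : WithOne S) * e = b * e * u := by
      rw [mul_assoc, hc1 e u he hu, ← mul_assoc, h1]
    rw [h2, mul_assoc _ u, mul_assoc _ u, (H x y).1 h]
  have hmul : ∀ (F : Type) [Semigroup F] (f : S →ₙ* F) (α β : SymInv S), Shape α → Shape β →
      img f (α * β) = (BRel.semigroup F).mul (img f α) (img f β) := by
    intro F _ f α β hα hβ
    change BRel.mk _ = BRel.mk _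
    congr 1
    funext p q
    apply propext
    constructor
    · rintro ⟨a, c, hac, rfl, rfl⟩
      obtain ⟨b, hab, hbc⟩ := (symInv_mul_eq_some α β a c).1 hac
      exact ⟨f b, ⟨a, b, hab, rfl, rfl⟩, b, c, hbc, rfl, rfl⟩
    · rintro ⟨_, ⟨a, b, hab, rfl, rfl⟩, b', c', hbc, hf, rfl⟩
      obtain ⟨g, h, H⟩ := hα.1
      obtain ⟨g', h', H'⟩ := hβ.1
      obtain ⟨h1, h2, h3⟩ := H a b hab
      obtain ⟨e, he, He⟩ := hR b'
      obtain ⟨u, hu, Hu⟩ := hL b'
      have he1 : e * (b' : WithOne S) = b' := by simpa using (He e 1).2 (by rw [he, one_mul])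
      have hu1 : (b' : WithOne S) * u = b' := by simpa using (Hu u 1).2 (by rw [hu, mul_one])
      have h7 : g * (b : WithOne S) * h = a := by
        calc g * (b : WithOne S) * h = g * h * a * (g * h) := by rw [h3]; simp only [mul_assoc]
          _ = a := by rw [h1, h2]
      have h8 : h * g * (b : WithOne S) = 1 * b := by
        calc h * g * (b : WithOne S) = h * (g * h * a) * g := by rw [h3]; simp only [mul_assoc]
          _ = 1 * b := by rw [h1, h3, one_mul]
      have h9 : (b : WithOne S) * (h * g) = b * 1 := by
        calc (b : WithOne S) * (h * g) = h * (a * (g * h)) * g := by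
              rw [h3]; simp only [mul_assoc]
          _ = b * 1 := by rw [h2, h3, mul_one]
      -- equations of `b` pass to `e b u`
      have hbl : ∀ x y : WithOne S, x * (b : WithOne S) = y * b →
          x * (e * b * u) = y * (e * b * u) := by
        intro x y hxy
        rw [← mul_assoc, ← mul_assoc y, hl b e x y he hxy]
      have hbr : ∀ x y : WithOne S, (b : WithOne S) * x = b * y →
          e * b * u * x = e * b * u * y := by
        intro x y hxy
        have := congrArg (e * ·) (hr b u x y hu hxy)
        simpa only [mul_assoc] using this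
      obtain ⟨b₁, hb₁⟩ := hα.dom (a' := sand g (sand e b u) h) hab (fun x y hxy => by
          have h10 : x * g * (b : WithOne S) = y * g * b := by
            have := congrArg (· * g) hxy
            rw [← h7] at this
            simp only [mul_assoc] at this h9 ⊢
            rwa [h9, mul_one] at this
          have := congrArg (· * h) (hbl _ _ h10)
          rw [coe_sand, coe_sand]
          simpa only [mul_assoc] using this) (fun x y hxy => by
          have h10 : (b : WithOne S) * (h * x) = b * (h * y) := by
            have := congrArg (h * ·) hxy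
            rw [← h7] at this
            simp only [← mul_assoc] at this h8 ⊢
            rwa [h8, one_mul] at this
          have := congrArg (g * ·) (hbr _ _ h10)
          rw [coe_sand, coe_sand]
          simpa only [mul_assoc] using this)
      have hb₂ : b₁ = sand e b u := by
        apply WithOne.coe_injective
        rw [(H _ _ hb₁).2.2, coe_sand, coe_sand]
        calc h * (g * (e * b * u) * h) * g = h * g * (e * b * u) * (h * g) := by
              simp only [mul_assoc]
          _ = e * b * u := by rw [hbl _ _ h8, one_mul, hbr _ _ h9, mul_one]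
      obtain ⟨c₁, hc₁⟩ := hβ.dom (a' := sand e b u) hbc (fun x y hxy => by
          have := congrArg (· * (b * u)) ((He x y).1 hxy)
          rw [coe_sand]
          simpa only [mul_assoc] using this) (fun x y hxy => by
          have := congrArg (e * b * ·) ((Hu x y).1 hxy)
          rw [coe_sand]
          simpa only [mul_assoc] using this)
      have hf1 : WithOne.mapMulHom f (b' : WithOne S) = WithOne.mapMulHom f (b : WithOne S) := by
        rw [WithOne.mapMulHom_coe, WithOne.mapMulHom_coe, hf]
      have hf2 : WithOne.mapMulHom f (e * b * u) = WithOne.mapMulHom f (b' : WithOne S) := by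
        rw [map_mul, map_mul, ← hf1, ← map_mul, ← map_mul, he1, hu1]
      refine ⟨sand g (sand e b u) h, c₁, (symInv_mul_eq_some α β _ _).2 ⟨_, hb₂ ▸ hb₁, hc₁⟩,
        ?_, ?_⟩
      · apply WithOne.coe_injective
        rw [← WithOne.mapMulHom_coe, ← WithOne.mapMulHom_coe, coe_sand, coe_sand, map_mul,
          map_mul, hf2, hf1, ← map_mul, ← map_mul, h7]
      · apply WithOne.coe_injective
        rw [← WithOne.mapMulHom_coe, ← WithOne.mapMulHom_coe, (H' _ _ hc₁).2.2, (H' _ _ hbc).2.2,
          coe_sand, map_mul, map_mul, hf2, ← map_mul, ← map_mul]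
  have hsep : ∀ u v : WithOne S, u ≠ v → ∃ (F : Type) (_ : Semigroup F) (_ : Finite F)
      (f : S →ₙ* F), WithOne.mapMulHom f u ≠ WithOne.mapMulHom f v := by
    intro u v huv
    induction u using WithOne.recOneCoe with
    | one =>
      induction v using WithOne.recOneCoe with
      | one => exact absurd rfl huv
      | coe v => exact ⟨PUnit, inferInstance, inferInstance, 1, by simp⟩
    | coe u =>
      induction v using WithOne.recOneCoe with
      | one => exact ⟨PUnit, inferInstance, inferInstance, 1, by simp⟩
      | coe v =>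
        obtain ⟨F, _, _, f, hf⟩ := hS u v (fun h => huv (by rw [h]))
        exact ⟨F, inferInstance, inferInstance, f, by simpa using hf⟩
  -- separation of a pair with `α a = b` and `β a ≠ b`
  have hkey : ∀ (α β : SymInv S) (a b : S), Shape β → α.toFun a = some b → β.toFun a ≠ some b →
      ∃ (F : Type) (_ : Semigroup F) (_ : Finite F) (f : S →ₙ* F), img f α ≠ img f β := by
    intro α β a b hβ hab hne
    have hrel : ∀ (F : Type) (f : S → F), img f α = img f β →
        ∃ a' b', β.toFun a' = some b' ∧ f a' = f a ∧ f b' = f b := by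
      intro F f h
      have h1 : (img f α).rel (f a) (f b) := ⟨a, b, hab, rfl, rfl⟩
      rw [h] at h1
      exact h1
    cases hb : β.toFun a with
    | none =>
      rcases hβ.2 a hb with ⟨x, y, h1, h2⟩ | ⟨x, y, h1, h2⟩
      · obtain ⟨F, _, _, f, hf⟩ := hsep _ _ h1
        refine ⟨F, inferInstance, inferInstance, f, fun h => hf ?_⟩
        obtain ⟨a', b', h3, h4, -⟩ := hrel F f h
        rw [map_mul, map_mul, WithOne.mapMulHom_coe, ← h4, ← WithOne.mapMulHom_coe, ← map_mul,
          ← map_mul, h2 a' b' h3]
      · obtain ⟨F, _, _, f, hf⟩ := hsep _ _ h1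
        refine ⟨F, inferInstance, inferInstance, f, fun h => hf ?_⟩
        obtain ⟨a', b', h3, h4, -⟩ := hrel F f h
        rw [map_mul, map_mul, WithOne.mapMulHom_coe, ← h4, ← WithOne.mapMulHom_coe, ← map_mul,
          ← map_mul, h2 a' b' h3]
    | some c =>
      obtain ⟨g, h, H⟩ := hβ.1
      obtain ⟨F, _, _, f, hf⟩ := hS c b (fun h => hne (by rw [hb, h]))
      refine ⟨F, inferInstance, inferInstance, f, fun h => hf ?_⟩
      obtain ⟨a', b', h3, h4, h5⟩ := hrel F f h
      rw [← h5]
      apply WithOne.coe_injective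
      rw [← WithOne.mapMulHom_coe, ← WithOne.mapMulHom_coe, (H _ _ hb).2.2, (H _ _ h3).2.2,
        map_mul, map_mul, map_mul, map_mul, WithOne.mapMulHom_coe, WithOne.mapMulHom_coe, h4]
  intro α β hαβ
  have hα := shape_of_mem α.2
  have hβ := shape_of_mem β.2
  obtain ⟨F, _, _, f, hf⟩ : ∃ (F : Type) (_ : Semigroup F) (_ : Finite F) (f : S →ₙ* F),
      img f α.1 ≠ img f β.1 := by
    obtain ⟨a, ha⟩ : ∃ a, α.1.toFun a ≠ β.1.toFun a := by
      by_contra h
      push Not at h
      exact hαβ (Subtype.ext (PEquiv.ext h))
    cases hab : α.1.toFun a with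
    | some b => exact hkey _ _ a b hβ hab (by rw [← hab]; exact ha.symm)
    | none =>
      cases hab' : β.1.toFun a with
      | none => exact absurd (hab.trans hab'.symm) ha
      | some b =>
        obtain ⟨F, _, _, f, hf⟩ := hkey _ _ a b hα hab' (by rw [hab]; simp)
        exact ⟨F, inferInstance, inferInstance, f, hf.symm⟩
  let _ := BRel.semigroup F
  exact ⟨BRel F, inferInstance, BRel.finite F, ⟨fun γ => img f γ.1, fun γ δ =>
    hmul F f γ.1 δ.1 (shape_of_mem γ.2) (shape_of_mem δ.2)⟩, hf⟩

/-- For a monoid, adjoining a new identity gives the same maps. -/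
lemma inn1_eq_inn (M : Type) [Monoid M] : Inn1 M = Inn M := by
  classical
  have key : ∀ g h : WithOne M, phi1 g h = phi (WithOne.unoneD 1 g) (WithOne.unoneD 1 h) := by
    intro g h
    apply PEquiv.ext
    intro a
    change (phi1 g h).toFun a = (phi _ _).toFun a
    have h1 : sand h a g = WithOne.unoneD 1 h * a * WithOne.unoneD 1 g := by
      apply WithOne.coe_injective
      rw [coe_sand]
      induction g using WithOne.recOneCoe <;> induction h using WithOne.recOneCoe <;> simp
    simp only [phi1, phi, h1]
    refine if_congr ?_ rfl rfl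
    induction g using WithOne.recOneCoe <;> induction h using WithOne.recOneCoe <;>
      simp [← WithOne.coe_mul]
  unfold Inn1 Inn
  congr 1
  ext x
  constructor
  · rintro ⟨g, h, rfl⟩
    exact ⟨_, _, key g h⟩
  · rintro ⟨g, h, rfl⟩
    exact ⟨g, h, (key g h).symm⟩

end Pool.Agent.P.MP_c9edc3_al
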