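import Mathlib

set_option autoImplicit false

namespace Pool.Agent.P.MP_c9edc3_al

/-- The symmetric inverse monoid of `S`: bijections between subsets of `S`. -/
def SymInv (S : Type) : Type := PEquiv S S

/-- The product is composition (first the left factor, then the right one). -/
instance instMonoidSymInv (S : Type) : Monoid (SymInv S) where
  mul a b := PEquiv.trans a b
  one := PEquiv.refl S
  mul_assoc a b c := PEquiv.trans_assoc a b c
  one_mul a := PEquiv.refl_trans a
  mul_one a := PEquiv.trans_refl a

open Classical in
/-- The map `a ↦ h a g` from `D(g,h) = {a | g h a = a g h = a}` onto `D(h,g)`. -/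
noncomputable def phi {S : Type} [Monoid S] (g h : S) : SymInv S where
  toFun a := if g * h * a = a ∧ a * (g * h) = a then some (h * a * g) else none
  invFun b := if h * g * b = b ∧ b * (h * g) = b then some (g * b * h) else none
  inv a b := by
    have key : ∀ g h a : S, g * h * a = a → a * (g * h) = a →
        (h * g * (h * a * g) = h * a * g ∧ h * a * g * (h * g) = h * a * g) ∧
          g * (h * a * g) * h = a := by
      intro g h a h1 h2
      refine ⟨⟨?_, ?_⟩, ?_⟩
      · calc h * g * (h * a * g) = h * (g * h * a) * g := by simp only [mul_assoc]
          _ = h * a * g := by rw [h1]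
      · calc h * a * g * (h * g) = h * (a * (g * h)) * g := by simp only [mul_assoc]
          _ = h * a * g := by rw [h2]
      · calc g * (h * a * g) * h = g * h * a * (g * h) := by simp only [mul_assoc]
          _ = a := by rw [h1, h2]
    constructor
    · intro H
      split_ifs at H with hb
      obtain rfl : g * b * h = a := Option.some.inj H
      obtain ⟨h1, h2⟩ := key h g b hb.1 hb.2
      rw [if_pos h1, h2]
    · intro H
      split_ifs at H with ha
      obtain rfl : h * a * g = b := Option.some.inj H
      obtain ⟨h1, h2⟩ := key g h a ha.1 ha.2
      rw [if_pos h1, h2]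

/-- `Inn S`: the submonoid generated by all the maps `phi g h`. -/
def Inn (S : Type) [Monoid S] : Submonoid (SymInv S) :=
  Submonoid.closure {x | ∃ g h : S, x = phi g h}

/-- Residual finiteness of a semigroup. -/
def ResFin (M : Type) [Semigroup M] : Prop :=
  ∀ x y : M, x ≠ y →
    ∃ (F : Type) (_ : Semigroup F) (_ : Finite F) (f : M →ₙ* F), f x ≠ f y

end Pool.Agent.P.MP_c9edc3_al
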