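import Pool.Agent.P.MP_c9edc3_al.Defs

set_option autoImplicit false

namespace Pool.Agent.P.MP_c9edc3_al

lemma sand_ne_one {S : Type} [Semigroup S] (h : WithOne S) (a : S) (g : WithOne S) :
    h * (a : WithOne S) * g ≠ 1 := by
  induction h using WithOne.recOneCoe <;> induction g using WithOne.recOneCoe <;>
    simp [← WithOne.coe_mul]

/-- The product `h a g`, as an element of `S`, for `a ∈ S` and `g, h ∈ S¹`. -/
def sand {S : Type} [Semigroup S] (h : WithOne S) (a : S) (g : WithOne S) : S :=
  WithOne.unone (sand_ne_one h a g)

lemma coe_sand {S : Type} [Semigroup S] (h : WithOne S) (a : S) (g : WithOne S) :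
    ((sand h a g : S) : WithOne S) = h * (a : WithOne S) * g := WithOne.coe_unone _

open Classical in
/-- For `g, h ∈ S¹`, the map `a ↦ h a g` from `D(g,h) = {a ∈ S | g h a = a g h = a}` onto
`D(h,g)`. -/
noncomputable def phi1 {S : Type} [Semigroup S] (g h : WithOne S) : SymInv S where
  toFun a := if g * h * (a : WithOne S) = (a : WithOne S) ∧
    (a : WithOne S) * (g * h) = (a : WithOne S) then some (sand h a g) else none
  invFun b := if h * g * (b : WithOne S) = (b : WithOne S) ∧
    (b : WithOne S) * (h * g) = (b : WithOne S) then some (sand g b h) else none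
  inv a b := by
    have key : ∀ (g h : WithOne S) (a : S), g * h * (a : WithOne S) = (a : WithOne S) →
        (a : WithOne S) * (g * h) = (a : WithOne S) →
        (h * g * ((sand h a g : S) : WithOne S) = ((sand h a g : S) : WithOne S) ∧
          ((sand h a g : S) : WithOne S) * (h * g) = ((sand h a g : S) : WithOne S)) ∧
          sand g (sand h a g) h = a := by
      intro g h a h1 h2
      refine ⟨⟨?_, ?_⟩, ?_⟩
      · rw [coe_sand]
        calc h * g * (h * a * g) = h * (g * h * a) * g := by simp only [mul_assoc]
          _ = h * a * g := by rw [h1]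
      · rw [coe_sand]
        calc h * a * g * (h * g) = h * (a * (g * h)) * g := by simp only [mul_assoc]
          _ = h * a * g := by rw [h2]
      · apply WithOne.coe_injective
        rw [coe_sand, coe_sand]
        calc g * (h * a * g) * h = g * h * a * (g * h) := by simp only [mul_assoc]
          _ = a := by rw [h1, h2]
    constructor
    · intro H
      split_ifs at H with hb
      obtain rfl : sand g b h = a := Option.some.inj H
      obtain ⟨h1, h2⟩ := key h g b hb.1 hb.2
      rw [if_pos h1, h2]
    · intro H
      split_ifs at H with ha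
      obtain rfl : sand h a g = b := Option.some.inj H
      obtain ⟨h1, h2⟩ := key g h a ha.1 ha.2
      rw [if_pos h1, h2]

/-- `Inn(S)` for a semigroup `S`: the submonoid generated by all the maps `phi1 g h`,
`g, h ∈ S¹`. -/
def Inn1 (S : Type) [Semigroup S] : Submonoid (SymInv S) :=
  Submonoid.closure {x | ∃ g h : WithOne S, x = phi1 g h}

end Pool.Agent.P.MP_c9edc3_al
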