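import Pool.Agent.P.MP_c9edc3_al.Defs

set_option autoImplicit false

namespace Pool.Agent.P.MP_c9edc3_al

/-- Shifts and constant maps of an additive monoid. -/
inductive T (A : Type) : Type
  | sh : A → T A
  | co : A → T A

namespace T

variable {A B : Type}

def mul' [Add A] : T A → T A → T A
  | sh k, sh l => sh (k + l)
  | co i, sh l => co (i + l)
  | _, co j => co j

instance [AddMonoid A] : Monoid (T A) where
  mul := mul'
  one := sh 0
  mul_assoc a b c := by
    change mul' (mul' a b) c = mul' a (mul' b c)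
    cases a <;> cases b <;> cases c <;> simp [mul', add_assoc]
  one_mul a := by
    change mul' (sh 0) a = a
    cases a <;> simp [mul']
  mul_one a := by
    change mul' a (sh 0) = a
    cases a <;> simp [mul']

variable [AddMonoid A] [AddMonoid B]

@[simp] lemma sh_sh (k l : A) : (sh k * sh l : T A) = sh (k + l) := rfl
@[simp] lemma co_sh (k l : A) : (co k * sh l : T A) = co (k + l) := rfl
@[simp] lemma mul_co (x : T A) (l : A) : (x * co l : T A) = co l := by
  cases x <;> rfl

instance [Finite A] : Finite (T A) := by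
  refine Finite.of_surjective (fun x : A ⊕ A => Sum.elim sh co x) ?_
  rintro (a | a)
  · exact ⟨Sum.inl a, rfl⟩
  · exact ⟨Sum.inr a, rfl⟩

def mapFun (f : A → B) : T A → T B
  | sh k => sh (f k)
  | co k => co (f k)

def map (f : A →+ B) : T A →ₙ* T B where
  toFun := mapFun f
  map_mul' x y := by
    cases x <;> cases y <;> simp [mapFun]

end T

open T

lemma resFin_T : ResFin (T ℕ) := by
  intro x y hxy
  have key : ∀ k l : ℕ, k ≠ l → ((k : ZMod (k + l + 1)) ≠ (l : ZMod (k + l + 1))) := by
    intro k l hkl h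
    rw [ZMod.natCast_eq_natCast_iff'] at h
    rw [Nat.mod_eq_of_lt (by omega), Nat.mod_eq_of_lt (by omega)] at h
    exact hkl h
  cases x with
  | sh k =>
    cases y with
    | sh l =>
      refine ⟨T (ZMod (k + l + 1)), inferInstance, inferInstance,
        T.map (Nat.castAddMonoidHom _), ?_⟩
      have hkl : k ≠ l := fun h => hxy (by rw [h])
      simpa [T.map, mapFun] using key k l hkl
    | co l =>
      refine ⟨T (ZMod 1), inferInstance, inferInstance, T.map (Nat.castAddMonoidHom _), ?_⟩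
      simp [T.map, mapFun]
  | co k =>
    cases y with
    | sh l =>
      refine ⟨T (ZMod 1), inferInstance, inferInstance, T.map (Nat.castAddMonoidHom _), ?_⟩
      simp [T.map, mapFun]
    | co l =>
      refine ⟨T (ZMod (k + l + 1)), inferInstance, inferInstance,
        T.map (Nat.castAddMonoidHom _), ?_⟩
      have hkl : k ≠ l := fun h => hxy (by rw [h])
      simpa [T.map, mapFun] using key k l hkl

lemma fg_T : ∃ G : Finset (T ℕ), Subsemigroup.closure (G : Set (T ℕ)) = ⊤ := by
  classical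
  refine ⟨{sh 0, sh 1, co 0}, ?_⟩
  rw [eq_top_iff]
  have h0 : (sh 0 : T ℕ) ∈ Subsemigroup.closure (({sh 0, sh 1, co 0} : Finset (T ℕ)) : Set (T ℕ)) :=
    Subsemigroup.subset_closure (by simp)
  have h1 : (sh 1 : T ℕ) ∈ Subsemigroup.closure (({sh 0, sh 1, co 0} : Finset (T ℕ)) : Set (T ℕ)) :=
    Subsemigroup.subset_closure (by simp)
  have h2 : (co 0 : T ℕ) ∈ Subsemigroup.closure (({sh 0, sh 1, co 0} : Finset (T ℕ)) : Set (T ℕ)) :=
    Subsemigroup.subset_closure (by simp)
  have hs : ∀ k : ℕ, (sh k : T ℕ) ∈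
      Subsemigroup.closure (({sh 0, sh 1, co 0} : Finset (T ℕ)) : Set (T ℕ)) := by
    intro k
    induction k with
    | zero => exact h0
    | succ k ih => simpa using Subsemigroup.mul_mem _ ih h1
  rintro (k | k) -
  · exact hs k
  · simpa using Subsemigroup.mul_mem _ h2 (hs k)

/-- The map with one-point domain `co i ↦ co j`. -/
noncomputable def E (i j : ℕ) : SymInv (T ℕ) := phi (co j) (co i)

open Classical in
lemma E_apply (i j : ℕ) (a : T ℕ) :
    PEquiv.toFun (E i j) a = if a = co i then some (co j) else none := by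
  unfold E phi
  by_cases h : a = co i
  · subst h
    simp
  · have : ¬ ((co j * co i * a : T ℕ) = a ∧ a * (co j * co i) = a) := by
      rintro ⟨-, h2⟩
      apply h
      simpa using h2.symm
    simp only [this, if_false, h]

lemma mul_toFun (x y : SymInv (T ℕ)) (a : T ℕ) :
    PEquiv.toFun (x * y) a = (PEquiv.toFun x a).bind (PEquiv.toFun y) := rfl

lemma symInv_ext {x y : SymInv (T ℕ)} (h : ∀ a, PEquiv.toFun x a = PEquiv.toFun y a) : x = y :=
  PEquiv.ext h

lemma E_mul_E (i j k : ℕ) : E i j * E j k = E i k := by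
  apply symInv_ext
  intro a
  rw [mul_toFun, E_apply, E_apply]
  by_cases h : a = co i
  · simp [h, E_apply]
  · simp [h]

lemma E_mul_E_ne (i j k l : ℕ) (hjk : j ≠ k) (a : T ℕ) :
    PEquiv.toFun (E i j * E k l) a = none := by
  rw [mul_toFun, E_apply]
  by_cases h : a = co i
  · simp [h, E_apply, hjk]
  · simp [h]

lemma E_mem (i j : ℕ) : E i j ∈ Inn (T ℕ) :=
  Submonoid.subset_closure ⟨co j, co i, rfl⟩

lemma not_resFin_Inn : ¬ ResFin (Inn (T ℕ)) := by
  intro H
  let e : ℕ → ℕ → Inn (T ℕ) := fun i j => ⟨E i j, E_mem i j⟩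
  have hne : e 0 0 ≠ e 0 0 * e 1 1 := by
    intro h
    have h1 : E 0 0 = E 0 0 * E 1 1 := congrArg Subtype.val h
    have h2 := E_mul_E_ne 0 0 1 1 (by norm_num) (co 0)
    rw [← h1, E_apply] at h2
    simp at h2
  obtain ⟨F, _, _, f, hf⟩ := H _ _ hne
  obtain ⟨i, j, hij, hfij⟩ := Finite.exists_ne_map_eq_of_infinite (fun i : ℕ => f (e 0 i))
  apply hf
  have h1 : e 0 0 = e 0 i * e i 0 := Subtype.ext (E_mul_E 0 i 0).symm
  have h2 : e 0 0 * e 1 1 = e 0 j * e i 0 := by
    apply Subtype.ext
    apply symInv_ext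
    intro a
    exact (E_mul_E_ne 0 0 1 1 (by norm_num) a).trans (E_mul_E_ne 0 j i 0 hij.symm a).symm
  rw [h2, map_mul, ← hfij, ← map_mul, ← h1]

theorem main : ∃ (S : Type) (_ : Monoid S),
    (∃ G : Finset S, Subsemigroup.closure (G : Set S) = ⊤) ∧ ResFin S ∧ ¬ ResFin (Inn S) :=
  ⟨T ℕ, inferInstance, fg_T, resFin_T, not_resFin_Inn⟩

end Pool.Agent.P.MP_c9edc3_al
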